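import Pool.Agent.U762.GP.SeqK
import Pool.Agent.N490.OW.KT
import Pool.Agent.N455.OW.PV
import Pool.Agent.W123.LR.Fin

/-! The next prime, and the primes in all longer intervals, behind the terms of almost every
geometric progression. -/

set_option autoImplicit false

open Filter Topology MeasureTheory

namespace Pool.Agent.Results.MP_028722_nt.AllLengthsAlongPowers

/-- `primesIn x H` is the number of primes `p` with `x < p ≤ x + H`. -/
noncomputable def primesIn (x H : ℝ) : ℕ :=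
  ((Finset.Ioc ⌊x⌋₊ ⌊x + H⌋₊).filter Nat.Prime).card

lemma primesIn_eq {x H : ℝ} (hH : 0 ≤ H) :
    (primesIn x H : ℝ) = Nat.primeCounting ⌊x + H⌋₊ - Nat.primeCounting ⌊x⌋₊ := by
  have hab : ⌊x⌋₊ ≤ ⌊x + H⌋₊ := Nat.floor_mono (by linarith)
  exact Pool.Agent.U762.GP.pcn_sub hab

open Classical in
/-- For all `0 < μ < 1` and `κ > 0` there are `lam` and `ρ > 0` with the following property. Let
`s n ≥ 1` tend to infinity and let `w n ≥ 0` have a divergent sum and bounded sums over the dyadic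
blocks `t ≤ s n ≤ 2 t`. For almost every real `α > 1` the `n` such that, with `x = α ^ s n`,

* every real `H` with `κ log x ≤ H ≤ x` has `μ H / log x ≤ π(x, H) ≤ lam H / log x`, and
* some prime `p` satisfies `x < p ≤ x + κ log x`

have lower `w`-density at least `ρ`. -/
theorem result {μ κ : ℝ} (hμ0 : 0 < μ) (hμ1 : μ < 1) (hκ : 0 < κ) :
    ∃ lam ρ : ℝ, 0 < lam ∧ 0 < ρ ∧ ∀ (s w : ℕ → ℝ) (C : ℝ), (∀ n, 1 ≤ s n) →
      Tendsto s atTop atTop → (∀ n, 0 ≤ w n) →
      (∀ t : ℝ, 1 ≤ t → ∀ F : Finset ℕ, (∀ n ∈ F, t ≤ s n ∧ s n ≤ 2 * t) → ∑ n ∈ F, w n ≤ C) →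
      Tendsto (fun N => ∑ n ∈ Finset.range N, w n) atTop atTop →
      ∀ᵐ α ∂(volume.restrict (Set.Ioi (1 : ℝ))), ∀ᶠ N : ℕ in atTop,
        ρ * ∑ n ∈ Finset.range N, w n ≤
          ∑ n ∈ (Finset.range N).filter (fun n =>
            (∀ H : ℝ, κ * Real.log (α ^ s n) ≤ H → H ≤ α ^ s n →
              μ * (H / Real.log (α ^ s n)) ≤ primesIn (α ^ s n) H ∧
              primesIn (α ^ s n) H ≤ lam * (H / Real.log (α ^ s n))) ∧
            ∃ p : ℕ, p.Prime ∧ α ^ s n < p ∧ p ≤ α ^ s n + κ * Real.log (α ^ s n)), w n := by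
  have hKT : Pool.Agent.U762.GP.KT4 := by
    obtain ⟨c0, Z0, h1, h2, h3⟩ := Pool.Agent.N490.OW.kt Pool.Agent.N455.OW.pv 4
    exact ⟨c0, Z0, h1, h2, h3⟩
  obtain ⟨c, hc, hc1, hbig⟩ := Pool.Agent.U762.GP.bigD hKT
  obtain ⟨C0, hC0, u0, hSM⟩ := Pool.Agent.W123.LR.second_moment_local (1 / 2) (by norm_num)
  obtain ⟨lam, ρ, hlam, hρ, h⟩ := Pool.Agent.U762.GP.geoK hc hc1 hbig (by linarith : 0 ≤ C0)
    (u0 := u0) hSM hμ0 hμ1 hκ
  refine ⟨lam, ρ / 2, hlam, half_pos hρ, fun s w C hs1 hs hw0 hdy hdiv => ?_⟩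
  filter_upwards [h s w C ⟨hs1, hw0, hdy⟩ hs hdiv, ae_restrict_mem measurableSet_Ioi] with α hα hα1
  have hα0 : 1 < α := hα1
  have hl0 : 0 < Real.log α := Real.log_pos hα0
  -- the first terms
  have hev : ∀ᶠ n in atTop, κ * Real.log (α ^ s n) ≤ α ^ s n := by
    have h1 : Tendsto (fun n => α ^ s n) atTop atTop :=
      (tendsto_rpow_atTop_of_base_gt_one α hα0).comp hs
    have h2 := (Real.isLittleO_log_id_atTop.bound (by positivity : 0 < 1 / κ))
    filter_upwards [h1.eventually h2, h1.eventually_ge_atTop 1] with n hn hn1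
    simp only [id] at hn
    have hlog : 0 ≤ Real.log (α ^ s n) := Real.log_nonneg hn1
    rw [Real.norm_of_nonneg hlog, Real.norm_of_nonneg (by linarith), one_div_mul_eq_div,
      le_div_iff₀ hκ] at hn
    linarith
  obtain ⟨n0, hn0⟩ := eventually_atTop.1 hev
  have hbig2 : ∀ᶠ N : ℕ in atTop, (∑ n ∈ Finset.range n0, w n) / (ρ / 2) ≤
      ∑ n ∈ Finset.range N, w n := hdiv.eventually_ge_atTop _
  filter_upwards [hα, hbig2] with N hN hN2
  rw [div_le_iff₀ (by positivity)] at hN2
  have hpt : ∀ n, (if Pool.Agent.U762.GP.GoodK μ lam κ (α ^ s n) then w n else 0) ≤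
      (if ((∀ H : ℝ, κ * Real.log (α ^ s n) ≤ H → H ≤ α ^ s n →
              μ * (H / Real.log (α ^ s n)) ≤ primesIn (α ^ s n) H ∧
              primesIn (α ^ s n) H ≤ lam * (H / Real.log (α ^ s n))) ∧
            ∃ p : ℕ, p.Prime ∧ α ^ s n < p ∧ p ≤ α ^ s n + κ * Real.log (α ^ s n)) then w n
        else 0) + (if n < n0 then w n else 0) := by
    intro n
    have hw := hw0 n
    by_cases hn : n < n0
    · rw [if_pos hn]
      split_ifs <;> linarith
    · rw [if_neg hn, add_zero]
      push Not at hn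
      by_cases hg : Pool.Agent.U762.GP.GoodK μ lam κ (α ^ s n)
      · rw [if_pos hg]
        have hx1 : 1 < α ^ s n := Real.one_lt_rpow hα0 (by linarith [hs1 n])
        have hl : 0 < Real.log (α ^ s n) := Real.log_pos hx1
        have hfirst : ∀ H : ℝ, κ * Real.log (α ^ s n) ≤ H → H ≤ α ^ s n →
              μ * (H / Real.log (α ^ s n)) ≤ primesIn (α ^ s n) H ∧
              primesIn (α ^ s n) H ≤ lam * (H / Real.log (α ^ s n)) := by
          intro H h1 h2
          rw [primesIn_eq (le_trans (by positivity) h1)]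
          exact hg H h1 h2
        have hsecond : ∃ p : ℕ, p.Prime ∧ α ^ s n < p ∧
            p ≤ α ^ s n + κ * Real.log (α ^ s n) := by
          have h1 := (hfirst _ le_rfl (hn0 n hn)).1
          have h2 : 0 < primesIn (α ^ s n) (κ * Real.log (α ^ s n)) := by
            have h3 : 0 < μ * (κ * Real.log (α ^ s n) / Real.log (α ^ s n)) := by positivity
            have h4 : (0 : ℝ) < primesIn (α ^ s n) (κ * Real.log (α ^ s n)) := by linarith
            exact_mod_cast h4
          obtain ⟨p, hp⟩ := Finset.card_pos.1 h2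
          rw [Finset.mem_filter, Finset.mem_Ioc] at hp
          refine ⟨p, hp.2, ?_, ?_⟩
          · exact (Nat.floor_lt (by linarith)).1 hp.1.1
          · exact (Nat.le_floor_iff (by positivity)).1 hp.1.2
        rw [if_pos ⟨hfirst, hsecond⟩]
      · rw [if_neg hg]
        split_ifs
        · exact hw
        · exact le_rfl
  have hsum := Finset.sum_le_sum (fun n (_ : n ∈ Finset.range N) => hpt n)
  rw [Finset.sum_add_distrib] at hsum
  have hlast : ∑ n ∈ Finset.range N, (if n < n0 then w n else 0) ≤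
      ∑ n ∈ Finset.range n0, w n := by
    rw [← Finset.sum_filter]
    apply Finset.sum_le_sum_of_subset_of_nonneg
    · intro n hn
      rw [Finset.mem_filter] at hn
      exact Finset.mem_range.2 hn.2
    · intro n _ _
      exact hw0 n
  rw [Finset.sum_filter]
  linarith

end Pool.Agent.Results.MP_028722_nt.AllLengthsAlongPowers
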