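import Pool.Agent.U642.EW.Core

set_option autoImplicit false

/-!
# The easier Waring problem with all the variables in record prime gaps

Let `f(x) = log x (log₂ x)² log₄ x / (log₃ x)²` be the order of the largest prime gaps that are
known to occur (starting files).  Let `P` be a polynomial with integer coefficients, of degree at
least `2`, such that no prime number divides all the differences `P(x) - P(y)`.

The theorem: there are fixed signs `ε_1, …, ε_s` and `κ > 0` such that every integer `N` can be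
written as

  `N = ε_1 P(x_1) + … + ε_s P(x_s)`

with arbitrarily large positive integers `x_i` all of which are in the middle of prime gaps of
record size: all the prime numbers are at a distance larger than `κ f(x_i)` from `x_i`.

For `P = x ^ k` this is the easier Waring problem (E. M. Wright: every integer is a sum of a
bounded number of `k`-th powers with signs) with all the variables in record gaps; `κ` and the
number of the variables depend on `k` only.  The condition on `P` is necessary: if a prime `l`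
divides all the differences `P(x) - P(y)`, then the sums with `s` fixed signs are in one residue
class modulo `l`.

Method.  The difference of order `k - 1` of `P` is `k! a x + D`, so that
`k! a z = N - D - ∑ σ_i P(x_i)` gives a representation of `N` by the numbers `x_i` and
`z, z + 1, …, z + k - 1`.  The `x_i = Q y_i + r_i`, `Q = k! a`, are chosen in residue classes for
which `z` is an integer.  By Weil's bound the numbers `Q y_i + r_i` and the values `z(y)` are a
balanced family of polynomials, and the criterion for balanced families (covering sieve, helper837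
and helper542, after helper256 and helper378) puts all of them into record gaps at once; as the
constant term of `z(y)` is bounded for fixed `N`, the constant `κ` can be chosen independent of
`N`.
-/

namespace Pool.Agent.Results.MP_028722_nt.EasierWaringProblem

open Finset Polynomial

/-- The record scale `f(x) = log x (log₂ x)² log₄ x / (log₃ x)²` (iterated natural logarithms). -/
noncomputable def f (x : ℝ) : ℝ :=
  Real.log x * (Real.log (Real.log x)) ^ 2 * Real.log (Real.log (Real.log (Real.log x))) /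
    (Real.log (Real.log (Real.log x))) ^ 2

/-- the case of a positive leading coefficient -/
lemma pos_case (P : ℤ[X]) (hP : 2 ≤ P.natDegree) (ha : 0 < P.leadingCoeff)
    (hfix : ∀ l : ℕ, l.Prime → ∃ x y : ℤ, ¬ (l : ℤ) ∣ P.eval x - P.eval y) :
    ∃ (s : ℕ) (ε : Fin s → ℤ), (∀ i, ε i = 1 ∨ ε i = -1) ∧ ∃ κ : ℝ, 0 < κ ∧
      ∀ (N : ℤ) (X : ℝ), ∃ x : Fin s → ℤ, (∀ i, X ≤ x i) ∧ ∑ i, ε i * P.eval (x i) = N ∧
        ∀ i, ∀ l : ℕ, l.Prime → κ * f (x i) < |(l : ℝ) - x i| := by
  obtain ⟨n, hn⟩ : ∃ n : ℕ, P.natDegree = n + 1 := ⟨P.natDegree - 1, by omega⟩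
  obtain ⟨d, κ, hκ, h⟩ := Pool.Agent.U642.EW.core P n (by omega) hn ha hfix
  obtain ⟨e⟩ : Nonempty (((Σ j : Fin (n + 1), Fin (n.choose j)) ⊕ Fin d) ≃
    Fin (Fintype.card ((Σ j : Fin (n + 1), Fin (n.choose j)) ⊕ Fin d))) := ⟨Fintype.equivFin _⟩
  obtain ⟨sg, hsg⟩ : ∃ sg : ((Σ j : Fin (n + 1), Fin (n.choose j)) ⊕ Fin d) → ℤ,
    sg = Sum.elim (fun u => (-1 : ℤ) ^ (n - (u.1 : ℕ))) (fun i : Fin d => (-1 : ℤ) ^ (i : ℕ)) :=
    ⟨_, rfl⟩
  refine ⟨_, fun i => sg (e.symm i), ?_, κ, hκ, ?_⟩
  · intro i
    simp only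
    rw [hsg]
    rcases e.symm i with u | u
    · exact neg_one_pow_eq_or ℤ _
    · exact neg_one_pow_eq_or ℤ _
  intro N X
  obtain ⟨x, z, h1, h2, h3, h4, h5⟩ := h N X
  obtain ⟨xv, hxv⟩ : ∃ xv : ((Σ j : Fin (n + 1), Fin (n.choose j)) ⊕ Fin d) → ℤ,
    xv = Sum.elim (fun u => z + ((u.1 : ℕ) : ℤ)) x := ⟨_, rfl⟩
  refine ⟨fun i => xv (e.symm i), ?_, ?_, ?_⟩
  · intro i
    simp only
    rw [hxv]
    rcases e.symm i with u | u
    · simp only [Sum.elim_inl]
      push_cast
      have : (0 : ℝ) ≤ ((u.1 : ℕ) : ℝ) := Nat.cast_nonneg _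
      linarith
    · exact h2 u
  · rw [Equiv.sum_comp e.symm (fun w => sg w * P.eval (xv w)), Fintype.sum_sum_type, ← h3]
    congr 1
    · rw [Fintype.sum_sigma, Finset.sum_range]
      refine sum_congr rfl fun j _ => ?_
      have h6 : ∀ y : Fin (n.choose j), sg (Sum.inl ⟨j, y⟩) * P.eval (xv (Sum.inl ⟨j, y⟩)) =
          (-1 : ℤ) ^ (n - (j : ℕ)) * P.eval (z + ((j : ℕ) : ℤ)) := by
        intro y
        rw [hsg, hxv]
        rfl
      rw [sum_congr rfl fun y _ => h6 y, sum_const, card_univ, Fintype.card_fin, nsmul_eq_mul]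
      ring
    · refine sum_congr rfl fun j _ => ?_
      rw [hsg, hxv]
      rfl
  · intro i
    simp only
    rw [hxv]
    rcases e.symm i with u | u
    · exact h4 u.1 (mem_range.mpr u.1.2)
    · exact h5 u

/-- **The easier Waring problem with all the variables in record prime gaps.** -/
theorem result (P : ℤ[X]) (hP : 2 ≤ P.natDegree)
    (hfix : ∀ l : ℕ, l.Prime → ∃ x y : ℤ, ¬ (l : ℤ) ∣ P.eval x - P.eval y) :
    ∃ (s : ℕ) (ε : Fin s → ℤ), (∀ i, ε i = 1 ∨ ε i = -1) ∧ ∃ κ : ℝ, 0 < κ ∧
      ∀ (N : ℤ) (X : ℝ), ∃ x : Fin s → ℤ, (∀ i, X ≤ x i) ∧ ∑ i, ε i * P.eval (x i) = N ∧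
        ∀ i, ∀ l : ℕ, l.Prime → κ * f (x i) < |(l : ℝ) - x i| := by
  rcases lt_trichotomy P.leadingCoeff 0 with ha | ha | ha
  · obtain ⟨s, ε, hε, κ, hκ, h⟩ := pos_case (-P) (by rw [natDegree_neg]; exact hP)
      (by rw [leadingCoeff_neg]; omega) (by
        intro l hl
        obtain ⟨x, y, hxy⟩ := hfix l hl
        refine ⟨y, x, ?_⟩
        rw [eval_neg, eval_neg]
        have e1 : -P.eval y - -P.eval x = P.eval x - P.eval y := by ring
        rw [e1]
        exact hxy)
    refine ⟨s, ε, hε, κ, hκ, fun N X => ?_⟩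
    obtain ⟨x, h1, h2, h3⟩ := h (-N) X
    refine ⟨x, h1, ?_, h3⟩
    have e1 : ∑ i, ε i * (-P).eval (x i) = -∑ i, ε i * P.eval (x i) := by
      rw [← sum_neg_distrib]
      refine sum_congr rfl fun i _ => ?_
      rw [eval_neg]
      ring
    rw [e1] at h2
    linarith
  · rw [leadingCoeff_eq_zero] at ha
    rw [ha, natDegree_zero] at hP
    omega
  · exact pos_case P hP ha hfix

end Pool.Agent.Results.MP_028722_nt.EasierWaringProblem
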