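import Pool.Agent.U505.MG.DetEq

set_option autoImplicit false

/-!
# Record prime gaps at the entries of integer matrices with given determinant modulo a prime

Let `f(x) = log x (log₂ x)² log₄ x / (log₃ x)²` be the order of the largest prime gaps that are known to
occur (starting files).  Let `p` be a large prime and `n ≥ 2`.  We look for integer `n × n` matrices `z`
with `det z ≡ d (mod p)`, `p ∤ d`, with entries `z_ij` from given intervals `(M_ij, M_ij + L_ij]`, in
arbitrary position, such that all the `n²` entries, and all their monomials `∏ z_ij ^ e_ij` with bounded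
coprime exponents (for instance the products over any set of entries), lie in the middle of prime gaps of
the record size for the modulus `p`.  If `p ^ δ ≤ L_ij ≤ p` and the volume `∏ L_ij` of the box is at least
`p ^ (n² - n + 1 + δ)`, there are at least `p ^ (-δ)` times as many such matrices as expected, that is
`∏ L_ij / p ^ (1 + δ)` of them.  For cubes it is enough that the sides are `≥ p ^ (1 - (n - 1) / n² + δ)`.
For `d = 1` these are the matrices of the group `SL_n` over the field with `p` elements.

For `n = 1` this would be a congruence `z ≡ d`; the case of the congruence `z₁ z₂ ≡ d` is the starting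
result `MP_3bc45c_nt.ModularHyperbolas`.

Method.  Let `c` be a nonzero column of the frequency matrix, say the `j`-th one.  Averaging the exponential
sum over the abelian group of the column operations on the `j`-th column shows that only matrices `g` of
determinant `d` for which the row vector `c g` is a multiple of the `j`-th unit vector contribute, and the
column operations with the `j`-th column show that their proportion is at most `p ^ (-(n - 1))`.  The
criterion for families of vectors with small exponential sums (starting library `N39.RG`, after helper256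
and helper378) then gives the record gaps.
-/

namespace Pool.Agent.Results.MP_028722_nt.MatricesOfGivenDeterminant

open Finset

/-- The record scale `f(x) = log x (log₂ x)² log₄ x / (log₃ x)²` (iterated natural logarithms). -/
noncomputable def f (x : ℝ) : ℝ :=
  Real.log x * (Real.log (Real.log x)) ^ 2 * Real.log (Real.log (Real.log (Real.log x))) /
    (Real.log (Real.log (Real.log x))) ^ 2

/-- The integer `n × n` matrices `z` in the box `∏ (M i j, M i j + L i j]` with `det z ≡ d` modulo `p`
such that for all coprime exponents `e (i, j) ≤ E` every integer at distance at most `κ f(p)` from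
`∏ (z i j) ^ e (i, j)` has a prime factor `l ≤ p ^ δ`. -/
def Sols {n : ℕ} (E : ℕ) (κ δ : ℝ) (p : ℕ) (d : ℤ) (M : Fin n → Fin n → ℤ)
    (L : Fin n → Fin n → ℕ) : Set (Matrix (Fin n) (Fin n) ℤ) :=
  {z | (∀ i j, M i j < z i j ∧ z i j ≤ M i j + L i j) ∧ (p : ℤ) ∣ z.det - d ∧
    ∀ e : Fin n × Fin n → ℕ, (∀ x, e x ≤ E) → Finset.univ.gcd e = 1 →
      ∀ m : ℤ, |(m : ℝ) - ∏ x : Fin n × Fin n, (z x.1 x.2 : ℝ) ^ e x| ≤ κ * f p →
        ∃ l : ℕ, l.Prime ∧ (l : ℝ) ≤ (p : ℝ) ^ δ ∧ (l : ℤ) ∣ m}

/-- **Record prime gaps at the entries of integer matrices with given determinant modulo `p`.** -/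
theorem result (n E : ℕ) (hn : 2 ≤ n) (δ : ℝ) (hδ : 0 < δ) (hδ1 : δ ≤ 1) :
    ∃ κ : ℝ, 0 < κ ∧ ∃ p₀ : ℕ, ∀ p : ℕ, p.Prime → p₀ ≤ p → ∀ d : ℤ, ¬ (p : ℤ) ∣ d →
    ∀ (M : Fin n → Fin n → ℤ) (L : Fin n → Fin n → ℕ),
      (∀ i j, (p : ℝ) ^ δ ≤ L i j ∧ L i j ≤ p) →
      (p : ℝ) ^ ((n : ℝ) ^ 2 - n + 1 + δ) ≤ ∏ i, ∏ j, (L i j : ℝ) →
      (∏ i, ∏ j, (L i j : ℝ)) / (p : ℝ) ^ (1 + δ) ≤ ((Sols E κ δ p d M L).ncard : ℝ) :=
  Pool.Agent.U505.MG.detEq n E hn δ hδ hδ1

end Pool.Agent.Results.MP_028722_nt.MatricesOfGivenDeterminant
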