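import Mathlib
import Pool.Agent.U395.RP.Fin
import Pool.Agent.U395.RP.Fin2

set_option autoImplicit false

/-!
# Cramér's question for resampled primes

Resample the primes at a rate `t(n)`: for every `n`, independently, with probability `1 - t(n)` keep the
information whether `n` is a prime, and with probability `t(n)` forget it and choose `n` with probability
`1 / log n`. So `n` belongs to the random set `Q` with probability `(1 - t(n)) 1_prime(n) + t(n) / log n`.
For `t = 0` this is the set of the primes and for `t = 1` it is Cramér's random model. Let `G(X)` be the largest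
gap between consecutive elements of `Q` up to `X`. Without any hypothesis:

* (A) if `t` is a constant, `0 < t ≤ 1`, then almost surely the number
  `L(Q) = limsup (q_(k+1) - q_k) / (log q_k)²` and also the lower and the upper limit of `G(X) / (log X)²`
  over all `X` lie between `1 / (t + (e^γ / 2) log (1 / t))` and `1 / t`
  (for `t = 1` this is Cramér's theorem). If `4 / 5 ≤ t < 1`, then the first number is larger than `1`:
  the bound `O((log q)²)` of the question is true for `Q` and has the right order, but the constant `1` is wrong,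
  at all scales.
* (B) if `(log n)^(-θ) ≤ t(n) ≤ 1`, then almost surely for all large `X`
  `(2 e^(-γ) / θ - ε) (log X)² / log log X ≤ G(X) ≤ (1 + ε) (log X)^(2 + θ)`; here `t(n)` may tend to `0`, that
  is, only a proportion `0` of the primes is changed.
* (C) the lower bounds need only the deletions: if every prime `p` is deleted with a probability between
  `e^(-D(p))` and `1 - ρ` and nothing is added, independently, where `ρ > 0` and `D` is an increasing and slowly
  varying function with `D(n) = o(log n)`, then almost surely `G(X) ≥ (2 e^(-γ) - ε) (log X)² / D(X)` for all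
  large `X`. For example, if one deletes at random any fixed proportion of the primes (`D` constant), then
  `G(X) ≥ c (log X)²` for all large `X`, so that the question could not have a better answer for this set.

Proof. Lower bounds: Maier's matrix method gives `X^(1 - η)` integers `n ≤ X` with at most `κ log n` primes in
`(n, n + c (log n)²]`, `c < 2 e^(-γ) κ` (`H510R2.Maier.G.few_freq`, helper510's team), many of them are larger
than `X^(1 - η)`, and at least one of the disjoint windows of this kind is empty in `Q` for all large `X`.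
Upper bounds: the added integers alone. In (C) one prime of every dyadic interval is used to see that the
gap found ends before `X`. The bounds for `L` in (A) are helper839's (`U839.Thin.mix`).
-/

open MeasureTheory ProbabilityTheory Filter Topology

namespace Pool.Agent.Results.MP_028722_nt.ResampledPrimes

/-- `L(Q) = limsup (q_(k+1) - q_k) / (log q_k)²`, where `q_0 < q_1 < ...` are the elements of `Q`. -/
noncomputable def L (Q : Set ℕ) : ENNReal :=
  limsup (fun k : ℕ => ENNReal.ofReal (((Nat.nth (· ∈ Q) (k + 1) : ℝ) - Nat.nth (· ∈ Q) k) /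
    (Real.log (Nat.nth (· ∈ Q) k)) ^ 2)) atTop

/-- `G Q X` is the largest gap `q_(k+1) - q_k` between consecutive elements of `Q` with
`q_(k+1) ≤ X` (and `0` if there is none). -/
noncomputable def G (Q : Set ℕ) (X : ℕ) : ℕ :=
  sSup {g | ∃ k, Nat.nth (· ∈ Q) (k + 1) ≤ X ∧ g = Nat.nth (· ∈ Q) (k + 1) - Nat.nth (· ∈ Q) k}

/-- The primes resampled at the rate `t`: `E n` is the event that `n` belongs to the random set. The events
are independent, and for all large `n` the event `E n` has the probability
`(1 - t n) 1_prime(n) + t n / log n`. -/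
structure Resampled {Ω : Type*} [MeasurableSpace Ω] (μ : Measure Ω) (t : ℕ → ℝ) (E : ℕ → Set Ω) :
    Prop where
  meas : ∀ n, MeasurableSet (E n)
  indep : iIndepSet E μ
  law : ∀ᶠ n : ℕ in atTop, μ.real (E n) = (if n.Prime then 1 - t n else 0) + t n / Real.log n

/-- The primes with random deletions: `E n` is the event that `n` belongs to the random set. The events are
independent, `E n` has probability `0` if `n` is composite, and a prime `p` does not belong to the
set with probability `δ p` (both for all large arguments). -/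
structure Thinned {Ω : Type*} [MeasurableSpace Ω] (μ : Measure Ω) (δ : ℕ → ℝ) (E : ℕ → Set Ω) :
    Prop where
  meas : ∀ n, MeasurableSet (E n)
  indep : iIndepSet E μ
  law : ∀ᶠ n : ℕ in atTop, μ.real (E n) = if n.Prime then 1 - δ n else 0

/-- `D` is bounded below by a positive number, increasing (for large arguments), `o(log n)`, and
slowly varying: `D(m) / D(n) → 1` uniformly for `n ≤ m ≤ 2 n`. -/
structure SlowlyVarying (D : ℕ → ℝ) : Prop where
  pos : ∃ D₀ : ℝ, 0 < D₀ ∧ ∀ᶠ n in atTop, D₀ ≤ D n
  mono : ∃ N : ℕ, ∀ n m : ℕ, N ≤ n → n ≤ m → D n ≤ D m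
  small : Tendsto (fun n : ℕ => D n / Real.log n) atTop (𝓝 0)
  slow : ∀ ε : ℝ, 0 < ε → ∀ᶠ n : ℕ in atTop, ∀ m : ℕ, n ≤ m → m ≤ 2 * n → |D m - D n| ≤ ε * D n

/-- Example: positive constants. -/
theorem slowlyVarying_const (d : ℝ) (hd : 0 < d) : SlowlyVarying (fun _ => d) := by
  have h := Pool.Agent.U839.Thin.slow_const d hd
  exact ⟨h.pos, ⟨0, fun _ _ _ _ => le_rfl⟩, h.small, h.slow⟩

/-- (A), the numerical supplement to (A), (B), (C). -/
theorem result.{u} :
    (∀ t : ℝ, 0 < t → t ≤ 1 → ∀ (Ω : Type u) [MeasurableSpace Ω] (μ : Measure Ω)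
      [IsProbabilityMeasure μ] (E : ℕ → Set Ω), Resampled μ (fun _ => t) E →
      ∀ᵐ ω ∂μ, {n | ω ∈ E n}.Infinite ∧
        ENNReal.ofReal (1 / (t + Real.exp Real.eulerMascheroniConstant / 2 * Real.log (1 / t))) ≤
          L {n | ω ∈ E n} ∧
        L {n | ω ∈ E n} ≤ ENNReal.ofReal (1 / t) ∧
        ∀ ε : ℝ, 0 < ε → ∀ᶠ X : ℕ in atTop,
          (1 / (t + Real.exp Real.eulerMascheroniConstant / 2 * Real.log (1 / t)) - ε) *
            (Real.log X) ^ 2 ≤ G {n | ω ∈ E n} X ∧
          (G {n | ω ∈ E n} X : ℝ) ≤ (1 / t + ε) * (Real.log X) ^ 2) ∧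
    (∀ t : ℝ, 4 / 5 ≤ t → t < 1 →
      1 < 1 / (t + Real.exp Real.eulerMascheroniConstant / 2 * Real.log (1 / t))) ∧
    (∀ θ : ℝ, 0 < θ → ∀ t : ℕ → ℝ, (∀ᶠ n : ℕ in atTop, 1 / (Real.log n) ^ θ ≤ t n ∧ t n ≤ 1) →
      ∀ (Ω : Type u) [MeasurableSpace Ω] (μ : Measure Ω) [IsProbabilityMeasure μ] (E : ℕ → Set Ω),
      Resampled μ t E → ∀ᵐ ω ∂μ, {n | ω ∈ E n}.Infinite ∧ ∀ ε : ℝ, 0 < ε → ∀ᶠ X : ℕ in atTop,
        (2 * Real.exp (-Real.eulerMascheroniConstant) / θ - ε) *
          ((Real.log X) ^ 2 / Real.log (Real.log X)) ≤ G {n | ω ∈ E n} X ∧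
        (G {n | ω ∈ E n} X : ℝ) ≤ (1 + ε) * (Real.log X) ^ (2 + θ)) ∧
    (∀ D : ℕ → ℝ, SlowlyVarying D → ∀ ρ : ℝ, 0 < ρ → ∀ δ : ℕ → ℝ,
      (∀ᶠ n : ℕ in atTop, Real.exp (-D n) ≤ δ n ∧ δ n ≤ 1 - ρ) →
      ∀ (Ω : Type u) [MeasurableSpace Ω] (μ : Measure Ω) [IsProbabilityMeasure μ] (E : ℕ → Set Ω),
      Thinned μ δ E → ∀ᵐ ω ∂μ, {n | ω ∈ E n}.Infinite ∧ ∀ ε : ℝ, 0 < ε → ∀ᶠ X : ℕ in atTop,
        (2 * Real.exp (-Real.eulerMascheroniConstant) - ε) * ((Real.log X) ^ 2 / D X) ≤
          G {n | ω ∈ E n} X) := by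
  have e : ∀ t : ℝ, 0 < t → t + Real.exp Real.eulerMascheroniConstant / 2 * Real.log (1 / t) =
      (1 - (1 - t)) + -Real.log (1 - (1 - t)) / Pool.Agent.U839.Thin.GG := by
    intro t ht
    rw [sub_sub_cancel, one_div, Real.log_inv, Pool.Agent.U839.Thin.GG, Real.exp_neg]
    have := Real.exp_pos Real.eulerMascheroniConstant
    field_simp
  refine ⟨?_, ?_, ?_, ?_⟩
  · intro t ht ht1 Ω _ μ _ E h
    have hP : ∀ᶠ n : ℕ in atTop, μ.real (E n) = (if n.Prime then 1 - t else 0) +
        (1 - (1 - t)) / Real.log n := by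
      filter_upwards [h.law] with n hn
      rw [hn, sub_sub_cancel]
    have h1 := Pool.Agent.U395.RP.finA_up (1 - t) (by linarith) (by linarith) h.meas h.indep hP
    have h2 := Pool.Agent.U395.RP.finA_low (1 - t) (by linarith) (by linarith) h.meas h.indep hP
    have h3 := Pool.Agent.U839.Thin.mix (1 - t) (by linarith) (by linarith) h.meas h.indep hP
    filter_upwards [h1, h2, h3] with ω g1 g2 g3
    obtain ⟨-, g1⟩ := g1
    obtain ⟨k3, k4, k5⟩ := g3
    rw [← e t ht] at k4
    rw [sub_sub_cancel] at k5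
    refine ⟨k3, k4, k5, fun ε hε => ?_⟩
    filter_upwards [g1 ε hε, g2 ε hε] with X k1 k2
    rw [← e t ht] at k2
    rw [sub_sub_cancel] at k1
    exact ⟨k2, k1⟩
  · intro t h1 h2
    rw [e t (by linarith)]
    exact Pool.Agent.U839.Thin.mix_gt (1 - t) (by linarith) (by linarith)
  · intro θ hθ t ht Ω _ μ _ E h
    exact Pool.Agent.U395.RP.finB θ hθ t h.meas h.indep h.law ht
  · intro D hD ρ hρ δ hδ Ω _ μ _ E h
    refine Pool.Agent.U395.RP.finD D ⟨hD.pos, hD.small, hD.slow⟩ hD.mono h.meas h.indep ρ hρ ?_ ?_ ?_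
    · filter_upwards [h.law, hδ] with p h1 h2 hp
      rw [h1, if_pos hp]
      linarith [h2.2]
    · filter_upwards [h.law, hδ] with p h1 h2 hp
      rw [probReal_compl_eq_one_sub (h.meas p), h1, if_pos hp]
      linarith [h2.1]
    · filter_upwards [h.law] with n h1 hn
      rw [probReal_compl_eq_one_sub (h.meas n), h1, if_neg hn]
      ring

end Pool.Agent.Results.MP_028722_nt.ResampledPrimes
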